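import Pool.Agent.Helper25K9.Had.Orders
import Pool.Agent.Y342.ION.Final

/-!
# Further families of symmetric designs of Ionin and Kharaghani

Let `m` be `659` or `1123`; no Hadamard matrix of order `4 m` was known. Let `n` be such that there
is a Hadamard matrix of order `2 n` (or `n = 1`), and that `q = 4 m n + 1` is a prime power. Then for
all `a` and `j`, with `q ^ 2 ^ a = 2 h + 1`, there is a symmetric design with the parameters
`(4 h² (1 + P² + P⁴ + ⋯ + P ^ (2 j)), P ^ (2 j) (2 h² + h), P ^ (2 j) (h² + h))`, `P = 2 h + 1`.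
-/

set_option autoImplicit false

namespace Pool.Agent.Results.MP_3038d1_co.FurtherIoninFamilies

/-- `B` lists the `v` blocks of a symmetric `(v, k, l)`-design on the point set `Fin v`:
`k < v`, `0 < l`, every block has `k` points, every point is in `k` blocks, any two distinct points
are in exactly `l` common blocks (and any two distinct blocks have exactly `l` common points). -/
def IsSymmetricDesign (v k l : ℕ) (B : Fin v → Finset (Fin v)) : Prop :=
  k < v ∧ 0 < l ∧ (∀ i, (B i).card = k) ∧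
  (∀ x, (Finset.univ.filter (fun i => x ∈ B i)).card = k) ∧
  (∀ x y, x ≠ y → (Finset.univ.filter (fun i => x ∈ B i ∧ y ∈ B i)).card = l) ∧
  (∀ i j, i ≠ j → (B i ∩ B j).card = l)

theorem result : ∀ m ∈ ([659, 1123] : List ℕ), ∀ n : ℕ, 0 < n →
    (n = 1 ∨ (∃ p : ℕ, p.Prime ∧ p % 4 = 3 ∧ 2 * n = p + 1) ∨
      (∃ q : ℕ, IsPrimePow q ∧ q % 4 = 1 ∧ n = q + 1) ∨
      ∃ H : Matrix (Fin (2 * n)) (Fin (2 * n)) ℤ, (∀ i j, H i j = 1 ∨ H i j = -1) ∧
        H * H.transpose = ((2 * n : ℕ) : ℤ) • 1) →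
    IsPrimePow (4 * (m * n) + 1) →
    ∀ a j h : ℕ, (4 * (m * n) + 1) ^ 2 ^ a = 2 * h + 1 →
      ∃ B, IsSymmetricDesign (4 * h ^ 2 * ∑ i ∈ Finset.range (j + 1), (2 * h + 1) ^ (2 * i))
        ((2 * h + 1) ^ (2 * j) * (2 * h ^ 2 + h)) ((2 * h + 1) ^ (2 * j) * (h ^ 2 + h)) B := by
  intro m hm n hn0 hn hq a j h hh
  have hH : Pool.Agent.TH394.HadOrder (4 * (m * n) + 1 - 1) := by
    rw [Nat.add_sub_cancel]
    exact Pool.Agent.Y341.Had.mult (Pool.Agent.Helper25K9.Had.base m hm) hn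
  have h4 : (4 * (m * n) + 1) % 4 = 1 := by omega
  have h1 := (Pool.Agent.Y341.Had.tower_pow hq h4 a).1
  have h2 := Pool.Agent.Y341.Had.tower hq h4 hH a
  rw [hh] at h1 h2
  exact Pool.Agent.Y342.ION.ionin h1 h2 j

end Pool.Agent.Results.MP_3038d1_co.FurtherIoninFamilies
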