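import Mathlib
import Pool.Agent.Helper31K9.ROL.Low
import Pool.Agent.Helper31K9.ROL.Cnt

set_option autoImplicit false

/-!
# Projective planes with a nilpotent group which is regular off two lines
-/

namespace Pool.Agent.Results.MP_3038d1_co.RegularOffTwoLines

/-- The sets `B i` (`i : Fin v`) are the blocks of a symmetric `(v, k, lam)`-design on the points
`Fin v`: every block has `k < v` points, every point is in `k` blocks, and any two distinct points
are in exactly `lam` common blocks. -/
structure IsSymmetricDesign (v k lam : ℕ) (B : Fin v → Finset (Fin v)) : Prop where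
  lt : k < v
  size : ∀ i, (B i).card = k
  rep : ∀ x, (Finset.univ.filter (fun i => x ∈ B i)).card = k
  pair : ∀ x y, x ≠ y → (Finset.univ.filter (fun i => x ∈ B i ∧ y ∈ B i)).card = lam

/-- The blocks `B` form a symmetric `(n ^ 2 + n + 1, n + 1, 1)`-design (a projective plane of order
`n`), and `H` is a nilpotent group of automorphisms which maps each of the two distinct blocks `B i`
and `B j` to itself and acts regularly on the `n (n - 1)` points outside the two blocks. -/
structure IsRegularOff (n : ℕ) (B : Fin (n ^ 2 + n + 1) → Finset (Fin (n ^ 2 + n + 1)))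
    (H : Subgroup (Equiv.Perm (Fin (n ^ 2 + n + 1)))) (i j : Fin (n ^ 2 + n + 1)) : Prop where
  design : IsSymmetricDesign (n ^ 2 + n + 1) (n + 1) 1 B
  nilpotent : Group.IsNilpotent H
  ne : i ≠ j
  aut : ∀ h ∈ H, ∀ a, ∃ b, (B a).image h = B b
  fix_i : ∀ h ∈ H, (B i).image h = B i
  fix_j : ∀ h ∈ H, (B j).image h = B j
  regular : ∀ x y, x ∉ B i ∪ B j → y ∉ B i ∪ B j → ∃! h, h ∈ H ∧ h x = y

theorem conv {n : ℕ} {B : Fin (n ^ 2 + n + 1) → Finset (Fin (n ^ 2 + n + 1))}
    {H : Subgroup (Equiv.Perm (Fin (n ^ 2 + n + 1)))} {i j : Fin (n ^ 2 + n + 1)}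
    (h : IsRegularOff n B H i j) : Pool.Agent.Helper31K9.ROL.RegOff n B H i j :=
  ⟨⟨h.design.lt, h.design.size, h.design.rep, h.design.pair⟩, h.ne, h.aut, h.fix_i, h.fix_j,
    h.regular⟩

/-- Projective planes of order `n ≥ 2` with a nilpotent group `H` of automorphisms which fixes two
lines and is regular on the points off the two lines (Dembowski-Piper type (f)).

(1) If a prime factor `p` of `n` is larger than the order of the commutator subgroup of `H`, then
`n` is a power of `p`.

(2) If `n` is not a prime power and `n (n - 1) = s ^ 2 c` with `c` squarefree, then all prime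
factors of `n` are at most `s ^ 2`.

(3) For all `X ≥ 1`, at most `3000 X exp (- (log X) ^ (1 / 2) / 16)` orders `n ≤ X` of such planes
are not prime powers.

(4) All prime powers are orders of such planes. -/
theorem result :
    (∀ (n : ℕ) (B : Fin (n ^ 2 + n + 1) → Finset (Fin (n ^ 2 + n + 1)))
      (H : Subgroup (Equiv.Perm (Fin (n ^ 2 + n + 1)))) (i j : Fin (n ^ 2 + n + 1)), 2 ≤ n →
      IsRegularOff n B H i j →
      (∀ p : ℕ, p.Prime → p ∣ n → Nat.card (commutator H) < p → ∃ r, n = p ^ r) ∧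
      (¬ IsPrimePow n → ∀ s c : ℕ, n * (n - 1) = s ^ 2 * c → Squarefree c →
        ∀ p : ℕ, p.Prime → p ∣ n → p ≤ s ^ 2)) ∧
    (∀ X : ℕ, 1 ≤ X → ({n : ℕ | n ≤ X ∧ 2 ≤ n ∧ ¬ IsPrimePow n ∧
      ∃ B H i j, IsRegularOff n B H i j}.ncard : ℝ) ≤
        3000 * X * Real.exp (-(Real.sqrt (Real.log X) / 16))) ∧
    ∀ n : ℕ, IsPrimePow n → ∃ B H i j, IsRegularOff n B H i j := by
  refine ⟨fun n B H i j hn h => ⟨fun p hp hpn hlt => ?_, fun hnp s c hs hc p hp hpn => ?_⟩,
    fun X hX => ?_, fun n hn => ?_⟩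
  · have h1 := (conv h).main h.nilpotent hn hp hpn hlt
    refine ⟨n.primeFactorsList.length, ?_⟩
    exact Nat.eq_prime_pow_of_unique_prime_dvd (by omega) (fun {d} hd hdn => h1 d hd hdn)
  · exact (conv h).small h.nilpotent hn hnp hs hc hp hpn
  · refine Pool.Agent.Helper31K9.ROL.count_main
      (P := fun n => ∃ B H i j, IsRegularOff n B H i j) ?_ X hX
    rintro n ⟨B, H, i, j, h⟩ hn hnp s c hs hc p hp hpn
    exact (conv h).small h.nilpotent hn hnp hs hc hp hpn
  · obtain ⟨B, H, i, j, h, hnil⟩ := Pool.Agent.Helper31K9.ROL.exists_primePow hn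
    exact ⟨B, H, i, j, ⟨h.des.lt, h.des.size, h.des.rep, h.des.pair⟩, hnil, h.ne, h.aut, h.fi,
      h.fj, h.reg⟩

end Pool.Agent.Results.MP_3038d1_co.RegularOffTwoLines
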