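import Mathlib
import Pool.Agent.Helper97K9.TB.Low

set_option autoImplicit false

/-!
# Projective planes with a group which is regular off a line and has a small commutator subgroup
-/

namespace Pool.Agent.Results.MP_3038d1_co.SmallCommutatorSubgroups

/-- The sets `B i` (`i : Fin v`) are the blocks of a symmetric `(v, k, lam)`-design on the points
`Fin v`: every block has `k < v` points, every point is in `k` blocks, and any two distinct points
are in exactly `lam` common blocks. -/
structure IsSymmetricDesign (v k lam : ℕ) (B : Fin v → Finset (Fin v)) : Prop where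
  lt : k < v
  size : ∀ i, (B i).card = k
  rep : ∀ x, (Finset.univ.filter (fun i => x ∈ B i)).card = k
  pair : ∀ x y, x ≠ y → (Finset.univ.filter (fun i => x ∈ B i ∧ y ∈ B i)).card = lam

/-- The blocks `B` form a symmetric `(n ^ 2 + n + 1, n + 1, 1)`-design (a projective plane of order
`n`), and `H` is a group of automorphisms which maps the block `B i` to itself and acts regularly on
the `n ^ 2` points outside `B i`; only the identity of `H` maps the block `B j` to itself. -/
structure IsRegularOffLine (n : ℕ) (B : Fin (n ^ 2 + n + 1) → Finset (Fin (n ^ 2 + n + 1)))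
    (H : Subgroup (Equiv.Perm (Fin (n ^ 2 + n + 1)))) (i j : Fin (n ^ 2 + n + 1)) : Prop where
  design : IsSymmetricDesign (n ^ 2 + n + 1) (n + 1) 1 B
  aut : ∀ h ∈ H, ∀ a, ∃ b, (B a).image h = B b
  fix : ∀ h ∈ H, (B i).image h = B i
  free : ∀ h ∈ H, (B j).image h = B j → h = 1
  regular : ∀ x y, x ∉ B i → y ∉ B i → ∃! h, h ∈ H ∧ h x = y

/-- The orders `n ≤ X` which are not prime, of planes with such a group `H` whose commutator
subgroup has at most `C` elements. -/
def nonPrimeOrders (C X : ℕ) : Set ℕ :=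
  {n | n ≤ X ∧ 2 ≤ n ∧ ¬ n.Prime ∧ ∃ B H i j, IsRegularOffLine n B H i j ∧
    Nat.card (commutator H) ≤ C}

theorem conv {n : ℕ} {B : Fin (n ^ 2 + n + 1) → Finset (Fin (n ^ 2 + n + 1))}
    {H : Subgroup (Equiv.Perm (Fin (n ^ 2 + n + 1)))} {i j : Fin (n ^ 2 + n + 1)}
    (h : IsRegularOffLine n B H i j) : Pool.Agent.Helper97K9.TB.TypeB n B H i j :=
  ⟨⟨h.design.lt, h.design.size, h.design.rep, h.design.pair⟩, h.aut, h.fix, h.free, h.regular⟩

theorem conv' {n : ℕ} {B : Fin (n ^ 2 + n + 1) → Finset (Fin (n ^ 2 + n + 1))}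
    {H : Subgroup (Equiv.Perm (Fin (n ^ 2 + n + 1)))} {i j : Fin (n ^ 2 + n + 1)}
    (h : Pool.Agent.Helper97K9.TB.TypeB n B H i j) : IsRegularOffLine n B H i j :=
  ⟨⟨h.des.lt, h.des.size, h.des.rep, h.des.pair⟩, h.aut, h.fi, h.fr, h.reg⟩

/-- Projective planes of order `n ≥ 2` with a group `H` of automorphisms which fixes a line, is
regular on the points off the line, and does not fix some line (by no element except the identity).
Let `c` be the order of the commutator subgroup of `H`, let `p` be a prime divisor of `n`, and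
`n = p ^ a m` with `m` not divisible by `p`.

(1) If `p` is odd, then `(p - 1 - c) n < c p ^ (2 a)`.

(2) If `2 c + 1 ≤ p`, then `m < p ^ a`, and every prime divisor of `m` has odd order modulo `p`.

(3) If `4 c ^ 2 < p` and `a = 1`, then `m` is a square, `m ≤ c`, and `m = 1` or `p ≤ 4 ^ m`.

(4) For all `C ≥ 1` the number of the orders `n ≤ X` which are not prime, of planes with such a group
with `c ≤ C`, is of the order of magnitude `X ^ (1 / 2) / log X`.

(5) All prime powers are orders of such planes, with a commutative group `H`. -/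
theorem result :
    (∀ (n : ℕ) (B : Fin (n ^ 2 + n + 1) → Finset (Fin (n ^ 2 + n + 1)))
      (H : Subgroup (Equiv.Perm (Fin (n ^ 2 + n + 1)))) (i j : Fin (n ^ 2 + n + 1)), 2 ≤ n →
      IsRegularOffLine n B H i j →
      ∀ p a m : ℕ, p.Prime → 1 ≤ a → n = p ^ a * m → ¬ p ∣ m →
        (p ≠ 2 → p * n <
          Nat.card (commutator H) * p ^ (2 * a) + (Nat.card (commutator H) + 1) * n) ∧
        (2 * Nat.card (commutator H) + 1 ≤ p →
          m < p ^ a ∧ ∀ l : ℕ, l.Prime → l ∣ m → Odd (orderOf (l : ZMod p))) ∧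
        (4 * Nat.card (commutator H) ^ 2 < p → a = 1 →
          IsSquare m ∧ m ≤ Nat.card (commutator H) ∧ (m = 1 ∨ p ≤ 4 ^ m))) ∧
    (∀ C : ℕ, 1 ≤ C → ∃ κ K : ℝ, 0 < κ ∧ ∀ X : ℕ, 4 ≤ X →
      κ * (√(X : ℝ) / Real.log X) ≤ ((nonPrimeOrders C X).ncard : ℝ) ∧
      ((nonPrimeOrders C X).ncard : ℝ) ≤ K * (√(X : ℝ) / Real.log X)) ∧
    ∀ n : ℕ, IsPrimePow n → ∃ B H i j, IsRegularOffLine n B H i j ∧
      Nat.card (commutator H) = 1 := by
  refine ⟨fun n B H i j hn h p a m hp ha hk hpm => ⟨fun hp2 => ?_, fun hpc => ?_, fun hpc ha1 => ?_⟩,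
    fun C hC => ?_, fun n hn => ?_⟩
  · exact (conv h).p1 hn hp hp2 hk hpm ha
  · exact (conv h).p2 hn hp hk hpm ha hpc
  · rw [ha1, pow_one] at hk
    exact (conv h).p3 hn hp hk hpm hpc
  · obtain ⟨K, hK⟩ := Pool.Agent.Helper97K9.TB.count_main C
    obtain ⟨κ, hκ, hlow⟩ := Pool.Agent.Helper97K9.TB.count_low
    have hfin : ∀ X, (nonPrimeOrders C X).Finite := fun X =>
      (Set.finite_Iic X).subset fun n hn => hn.1
    refine ⟨κ, K, hκ, fun X hX => ⟨hlow X hX _ (hfin X) ?_, ?_⟩⟩
    · intro p hp hpX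
      obtain ⟨B, H, i, j, h, hc⟩ := Pool.Agent.Helper97K9.TB.exists_primePow
        (n := p ^ 2) (hp.isPrimePow.pow (by norm_num))
      refine ⟨hpX, ?_, Nat.Prime.not_prime_pow (by norm_num), B, H, i, j, conv' h, by rw [hc]; exact hC⟩
      calc 2 ≤ p := hp.two_le
        _ = p ^ 1 := (pow_one p).symm
        _ ≤ p ^ 2 := Nat.pow_le_pow_right hp.pos (by norm_num)
    · refine le_trans ?_ (hK X (by omega))
      have hsub : nonPrimeOrders C X ⊆ {n : ℕ | n ≤ X ∧ 2 ≤ n ∧ ¬ n.Prime ∧ ∃ B H i j,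
          Pool.Agent.Helper97K9.TB.TypeB n B H i j ∧ Nat.card (commutator H) ≤ C} := by
        rintro n ⟨h1, h2, h3, B, H, i, j, h, hc⟩
        exact ⟨h1, h2, h3, B, H, i, j, conv h, hc⟩
      exact_mod_cast Set.ncard_le_ncard hsub ((Set.finite_Iic X).subset fun n hn => hn.1)
  · obtain ⟨B, H, i, j, h, hc⟩ := Pool.Agent.Helper97K9.TB.exists_primePow hn
    exact ⟨B, H, i, j, conv' h, hc⟩

end Pool.Agent.Results.MP_3038d1_co.SmallCommutatorSubgroups
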